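import Mathlib

/-!
# Translative covering of the unit square by rectangles of total area at least three

Every family (finite or infinite) of axis-parallel rectangles with all sides at most one, with some
side equal to one, and with total area at least three covers the unit square by translations.

The proof is a shelf argument: put the rectangles down in the order of decreasing heights, row after
row; a row is finished as soon as its total width is at least one, and its height is the height of its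
last rectangle. If `h₁ ≥ h₂ ≥ …` are the heights of the rows, then the total area of the `k`-th row
is less than `h_(k-1) + h_k`, so that the total area of a finite family which does not fill the height
`H` is less than `h₀ + 2 H`, where `h₀` is the largest height. A rectangle with a side equal to one
forms a row by itself without any loss, and this provides the room for infinite families.
-/

set_option autoImplicit false

open Set Finset

namespace Pool.Agent.Results.MP_6800d9_co.AreaThreeCovers

/-- The shelf algorithm. In the state `(x, y, h, H)` the part of the current row left of `x` is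
covered up to the height `h` above `y`; the aim is to cover the rest of `[0,1] × [y, y + H]`. -/
theorem shelf {ι : Type} [DecidableEq ι] (a b : ι → ℝ) (n : ℕ) :
    ∀ (F : Finset ι), F.card = n → ∀ (x y h H : ℝ), 0 ≤ x → x < 1 → 0 < h → 0 ≤ H →
      (∀ i ∈ F, 0 < a i ∧ a i ≤ 1 ∧ 0 < b i ∧ b i ≤ h) →
      (1 - x) * h + 2 * H ≤ ∑ i ∈ F, a i * b i →
      ∃ v : ι → ℝ × ℝ, ∀ u w : ℝ, 0 ≤ u → u ≤ 1 → y ≤ w → w ≤ y + H →
        (u < x ∧ w ≤ y + h) ∨
          ∃ i ∈ F, (v i).1 ≤ u ∧ u ≤ (v i).1 + a i ∧ (v i).2 ≤ w ∧ w ≤ (v i).2 + b i := by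
  induction n with
  | zero =>
    intro F hF x y h H hx0 hx1 hh hH hab hsum
    rw [Finset.card_eq_zero] at hF
    subst hF
    simp only [Finset.sum_empty] at hsum
    have : 0 < (1 - x) * h := mul_pos (by linarith) hh
    linarith
  | succ n ih =>
    intro F hF x y h H hx0 hx1 hh hH hab hsum
    have hne : F.Nonempty := by
      rw [← Finset.card_pos, hF]
      omega
    obtain ⟨i, hi, hmax⟩ := Finset.exists_max_image F b hne
    obtain ⟨hai, hai1, hbi, hbih⟩ := hab i hi
    have hcard : (F.erase i).card = n := by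
      rw [Finset.card_erase_of_mem hi, hF]
      omega
    have hsum' : ∑ j ∈ F.erase i, a j * b j = ∑ j ∈ F, a j * b j - a i * b i := by
      rw [← Finset.add_sum_erase F _ hi]
      ring
    have hab' : ∀ j ∈ F.erase i, 0 < a j ∧ a j ≤ 1 ∧ 0 < b j ∧ b j ≤ b i := by
      intro j hj
      have hjF := Finset.mem_of_mem_erase hj
      obtain ⟨h1, h2, h3, _⟩ := hab j hjF
      exact ⟨h1, h2, h3, hmax j hjF⟩
    by_cases hxa : x + a i < 1
    · -- the row is not finished
      have hN : (1 - (x + a i)) * b i + 2 * H ≤ ∑ j ∈ F.erase i, a j * b j := by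
        rw [hsum']
        have : (1 - x) * b i ≤ (1 - x) * h := mul_le_mul_of_nonneg_left hbih (by linarith)
        nlinarith
      obtain ⟨v, hv⟩ := ih (F.erase i) hcard (x + a i) y (b i) H (by linarith) hxa hbi hH hab' hN
      refine ⟨Function.update v i (x, y), fun u w hu0 hu1 hw0 hw1 => ?_⟩
      rcases hv u w hu0 hu1 hw0 hw1 with ⟨h1, h2⟩ | ⟨j, hj, h1, h2, h3, h4⟩
      · by_cases hux : u < x
        · left
          exact ⟨hux, by linarith⟩
        · right
          refine ⟨i, hi, ?_⟩
          simp only [Function.update_self]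
          exact ⟨not_lt.1 hux, h1.le, hw0, h2⟩
      · right
        have hji : j ≠ i := (Finset.mem_erase.1 hj).1
        refine ⟨j, Finset.mem_of_mem_erase hj, ?_⟩
        simp only [Function.update_of_ne hji]
        exact ⟨h1, h2, h3, h4⟩
    · -- the row is finished
      have hxa' : 1 ≤ x + a i := not_lt.1 hxa
      by_cases hHb : H ≤ b i
      · refine ⟨fun _ => (x, y), fun u w hu0 hu1 hw0 hw1 => ?_⟩
        by_cases hux : u < x
        · left
          exact ⟨hux, by linarith⟩
        · right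
          exact ⟨i, hi, not_lt.1 hux, by simp only; linarith, hw0, by simp only; linarith⟩
      · have hHb' : b i < H := not_le.1 hHb
        have hN : (1 - 0) * b i + 2 * (H - b i) ≤ ∑ j ∈ F.erase i, a j * b j := by
          rw [hsum']
          have h1 : 0 ≤ (1 - x) * h := (mul_pos (by linarith) hh).le
          have h2 : a i * b i ≤ 1 * b i := mul_le_mul_of_nonneg_right hai1 hbi.le
          linarith
        obtain ⟨v, hv⟩ := ih (F.erase i) hcard 0 (y + b i) (b i) (H - b i) le_rfl one_pos hbi
          (by linarith) hab' hN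
        refine ⟨Function.update v i (x, y), fun u w hu0 hu1 hw0 hw1 => ?_⟩
        by_cases hwb : w ≤ y + b i
        · by_cases hux : u < x
          · left
            exact ⟨hux, by linarith⟩
          · right
            refine ⟨i, hi, ?_⟩
            simp only [Function.update_self]
            exact ⟨not_lt.1 hux, by linarith, hw0, hwb⟩
        · right
          rcases hv u w hu0 hu1 (not_le.1 hwb).le (by linarith) with ⟨h1, _⟩ | ⟨j, hj, h1, h2, h3, h4⟩
          · exact absurd h1 (not_lt.2 hu0)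
          · have hji : j ≠ i := (Finset.mem_erase.1 hj).1
            refine ⟨j, Finset.mem_of_mem_erase hj, ?_⟩
            simp only [Function.update_of_ne hji]
            exact ⟨h1, h2, h3, h4⟩

/-- The case of a rectangle of full width. -/
theorem wide {ι : Type} (a b : ι → ℝ) (ha : ∀ i, 0 < a i ∧ a i ≤ 1)
    (hb : ∀ i, 0 < b i ∧ b i ≤ 1) (k : ι) (hk : a k = 1)
    (harea : 3 ≤ ∑' i, ENNReal.ofReal (a i * b i)) :
    ∃ v : ι → ℝ × ℝ, ∀ u w : ℝ, 0 ≤ u → u ≤ 1 → 0 ≤ w → w ≤ 1 →
      ∃ i, (v i).1 ≤ u ∧ u ≤ (v i).1 + a i ∧ (v i).2 ≤ w ∧ w ≤ (v i).2 + b i := by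
  classical
  -- a finite subfamily of area more than `3 - b k`
  obtain ⟨F, hF⟩ : ∃ F : Finset ι, 3 - b k < ∑ i ∈ F, a i * b i := by
    by_contra hcon
    push Not at hcon
    have h1 : ∑' i, ENNReal.ofReal (a i * b i) ≤ ENNReal.ofReal (3 - b k) := by
      rw [ENNReal.tsum_eq_iSup_sum]
      refine iSup_le fun s => ?_
      rw [← ENNReal.ofReal_sum_of_nonneg fun i _ => (mul_pos (ha i).1 (hb i).1).le]
      exact ENNReal.ofReal_le_ofReal (hcon s)
    have h2 : ENNReal.ofReal (3 - b k) < 3 := by
      have h3 : (3 : ENNReal) = ENNReal.ofReal 3 := by simp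
      rw [h3]
      exact (ENNReal.ofReal_lt_ofReal_iff (by norm_num)).2 (by linarith [(hb k).1])
    exact absurd (harea.trans h1) (not_le.2 h2)
  have hF' : 3 - b k < ∑ i ∈ insert k F, a i * b i :=
    hF.trans_le (Finset.sum_le_sum_of_subset_of_nonneg (Finset.subset_insert k F)
      fun i _ _ => (mul_pos (ha i).1 (hb i).1).le)
  have hE : ∑ i ∈ (insert k F).erase k, a i * b i = ∑ i ∈ insert k F, a i * b i - b k := by
    rw [← Finset.add_sum_erase (insert k F) _ (Finset.mem_insert_self k F), hk]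
    ring
  obtain ⟨v, hv⟩ := shelf a b _ ((insert k F).erase k) rfl 0 (b k) 1 (1 - b k) le_rfl one_pos
    one_pos (by linarith [(hb k).2]) (fun i _ => ⟨(ha i).1, (ha i).2, (hb i).1, (hb i).2⟩)
    (by rw [hE]; linarith)
  refine ⟨Function.update v k (0, 0), fun u w hu0 hu1 hw0 hw1 => ?_⟩
  by_cases hwk : w ≤ b k
  · refine ⟨k, ?_⟩
    simp only [Function.update_self, hk]
    exact ⟨hu0, by linarith, hw0, by linarith⟩
  · rcases hv u w hu0 hu1 (not_le.1 hwk).le (by linarith) with ⟨h1, _⟩ | ⟨j, hj, h1, h2, h3, h4⟩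
    · exact absurd h1 (not_lt.2 hu0)
    · have hjk : j ≠ k := (Finset.mem_erase.1 hj).1
      refine ⟨j, ?_⟩
      simp only [Function.update_of_ne hjk]
      exact ⟨h1, h2, h3, h4⟩

theorem result (ι : Type) (a b : ι → ℝ) (ha : ∀ i, 0 < a i ∧ a i ≤ 1)
    (hb : ∀ i, 0 < b i ∧ b i ≤ 1) (hone : ∃ i, a i = 1 ∨ b i = 1)
    (harea : 3 ≤ ∑' i, ENNReal.ofReal (a i * b i)) :
    ∃ v : ι → ℝ × ℝ, Icc (0 : ℝ) 1 ×ˢ Icc (0 : ℝ) 1 ⊆
      ⋃ i, Icc (v i).1 ((v i).1 + a i) ×ˢ Icc (v i).2 ((v i).2 + b i) := by
  obtain ⟨k, hk | hk⟩ := hone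
  · obtain ⟨v, hv⟩ := wide a b ha hb k hk harea
    refine ⟨v, ?_⟩
    rintro ⟨u, w⟩ ⟨⟨hu0, hu1⟩, hw0, hw1⟩
    obtain ⟨i, h1, h2, h3, h4⟩ := hv u w hu0 hu1 hw0 hw1
    exact mem_iUnion.2 ⟨i, ⟨h1, h2⟩, h3, h4⟩
  · obtain ⟨v, hv⟩ := wide b a hb ha k hk (by simpa only [mul_comm] using harea)
    refine ⟨fun i => ((v i).2, (v i).1), ?_⟩
    rintro ⟨u, w⟩ ⟨⟨hu0, hu1⟩, hw0, hw1⟩
    obtain ⟨i, h1, h2, h3, h4⟩ := hv w u hw0 hw1 hu0 hu1
    exact mem_iUnion.2 ⟨i, ⟨h3, h4⟩, h1, h2⟩

end Pool.Agent.Results.MP_6800d9_co.AreaThreeCovers
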